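import Pool.Agent.Helper79.GA.Blocks
import Pool.Agent.Helper86.GA.Codes
import Pool.Agent.Helper25.GA.Conn

/-!
# GA-9: the codes of the instance
-/

set_option autoImplicit false

namespace Pool.Agent.Helper36.Alg

open Finset Pool.Agent.Helper36.PT
open Pool.Agent.Helper36.Pin (Sparse rk edges nbr ThreeConn RedRigid GR completeOn Pins pin IsEnd
  Forced Complete coloops core blocks fill Gen0 Gen Coord Line Blk At0 At lines)

open Classical in
/-- The code of an element of `Gen0`. -/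
noncomputable def code0 (n : ℕ) (R : ℕ → ℕ → Prop) : Gen0 (gr n R) → ℕ
  | Sum.inl e => (min (Quot.out e).1 (Quot.out e).2 : ℕ) * n + (max (Quot.out e).1 (Quot.out e).2 : ℕ)
  | Sum.inr X => n ^ 2 + (exists_code X.2).choose

/-- The code of a generator. -/
noncomputable def codeG (n : ℕ) (R : ℕ → ℕ → Prop) : Gen (gr n R) → ℕ
  | Sum.inl (g, g') => code0 n R g * (2 * n ^ 2) + code0 n R g'
  | Sum.inr (X, i) => 4 * n ^ 4 + ((exists_code X.2).choose * n + (i : ℕ))

/-- The code of a coordinate. -/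
noncomputable def codeC (n : ℕ) (R : ℕ → ℕ → Prop) : Coord (gr n R) → ℕ
  | Sum.inl g => code0 n R g
  | Sum.inr (Sum.inl (X, i, b)) =>
      2 * n ^ 2 + 2 * ((exists_code X.2).choose * n + (i : ℕ)) + (b : ℕ)
  | Sum.inr (Sum.inr (v, b)) => 2 * n ^ 2 + 2 * n ^ 3 + 2 * (v : ℕ) + (b : ℕ)

/-- The code of a line. -/
noncomputable def codeL (n : ℕ) (R : ℕ → ℕ → Prop) : Line (gr n R) → ℕ
  | Sum.inl (v, g) => (v : ℕ) * NG n + codeG n R g
  | Sum.inr v => n * NG n + (v : ℕ)

/-! ### Arithmetic of codes -/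

theorem code_lt {a b m n : ℕ} (ha : a < m) (hb : b < n) : a * n + b < m * n := by
  have h : (a + 1) * n ≤ m * n := Nat.mul_le_mul_right n ha
  have h2 : (a + 1) * n = a * n + n := by ring
  omega

theorem code_div {a b n : ℕ} (hb : b < n) : (a * n + b) / n = a := by
  rw [Nat.mul_comm, Nat.mul_add_div (by omega), Nat.div_eq_of_lt hb, Nat.add_zero]

theorem code_mod {a b n : ℕ} (hb : b < n) : (a * n + b) % n = b := by
  rw [Nat.mul_comm, Nat.mul_add_mod, Nat.mod_eq_of_lt hb]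

theorem code_eq {a b a' b' n : ℕ} (hb : b < n) (hb' : b' < n) (h : a * n + b = a' * n + b') :
    a = a' ∧ b = b' := by
  refine ⟨?_, ?_⟩
  · rw [← code_div (a := a) hb, h, code_div hb']
  · rw [← code_mod (a := a) hb, h, code_mod hb']

/-- the code of a block -/
noncomputable def codeB (n : ℕ) (R : ℕ → ℕ → Prop) (X : Blk (gr n R)) : ℕ :=
  (exists_code X.2).choose

theorem codeB_spec (n : ℕ) (R : ℕ → ℕ → Prop) (X : Blk (gr n R)) :
    codeB n R X < n * n ∧ isBlk n R (codeB n R X) ∧ blkSet n R (codeB n R X) = X.1 :=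
  (exists_code X.2).choose_spec

theorem codeB_inj (n : ℕ) (R : ℕ → ℕ → Prop) : Function.Injective (codeB n R) := by
  intro X Y h
  apply Subtype.ext
  rw [← (codeB_spec n R X).2.2, ← (codeB_spec n R Y).2.2, h]

theorem codeB_blkSet {n : ℕ} {R : ℕ → ℕ → Prop} {k : ℕ} (hk : k < n * n) (h : isBlk n R k) :
    codeB n R ⟨blkSet n R k, blkSet_mem hk h⟩ = k := by
  have h1 := codeB_spec n R ⟨blkSet n R k, blkSet_mem hk h⟩
  exact blkSet_inj h1.1 hk h1.2.1 h h1.2.2

theorem code0_inr (n : ℕ) (R : ℕ → ℕ → Prop) (X : Blk (gr n R)) :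
    code0 n R (Sum.inr X) = n ^ 2 + codeB n R X := rfl

theorem codeG_inl (n : ℕ) (R : ℕ → ℕ → Prop) (g g' : Gen0 (gr n R)) :
    codeG n R (Sum.inl (g, g')) = code0 n R g * (2 * n ^ 2) + code0 n R g' := rfl

theorem codeG_inr (n : ℕ) (R : ℕ → ℕ → Prop) (X : Blk (gr n R)) (i : Fin (Fintype.card (Fin n))) :
    codeG n R (Sum.inr (X, i)) = 4 * n ^ 4 + (codeB n R X * n + (i : ℕ)) := rfl

/-- The code of a pair of vertices. -/
theorem code0_mk {n : ℕ} {R : ℕ → ℕ → Prop} {u v : Fin n} (h : u ≤ v) :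
    code0 n R (Sum.inl s(u, v)) = (u : ℕ) * n + v := by
  have h' : (u : ℕ) ≤ v := h
  have h1 : s((Quot.out s(u, v)).1, (Quot.out s(u, v)).2) = s(u, v) := Quot.out_eq _
  rw [Sym2.eq_iff] at h1
  change (min ((Quot.out s(u, v)).1 : ℕ) ((Quot.out s(u, v)).2 : ℕ)) * n +
    (max ((Quot.out s(u, v)).1 : ℕ) ((Quot.out s(u, v)).2 : ℕ)) = _
  rcases h1 with ⟨h1, h2⟩ | ⟨h1, h2⟩
  · rw [h1, h2, min_eq_left h', max_eq_right h']
  · rw [h1, h2, min_eq_right h', max_eq_left h']

/-- Each pair of vertices can be written in increasing order. -/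
theorem exists_mk_le {n : ℕ} (e : Sym2 (Fin n)) : ∃ u v : Fin n, u ≤ v ∧ e = s(u, v) := by
  induction e using Sym2.ind with
  | _ u v =>
    rcases le_total u v with h | h
    · exact ⟨u, v, h, rfl⟩
    · exact ⟨v, u, h, Sym2.eq_swap⟩

theorem code0_inl_lt (n : ℕ) (R : ℕ → ℕ → Prop) (e : Sym2 (Fin n)) :
    code0 n R (Sum.inl e) < n ^ 2 := by
  obtain ⟨u, v, h, rfl⟩ := exists_mk_le e
  rw [code0_mk h, sq]
  exact code_lt u.2 v.2

theorem code0_lt (n : ℕ) (R : ℕ → ℕ → Prop) (g : Gen0 (gr n R)) : code0 n R g < 2 * n ^ 2 := by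
  rcases g with e | X
  · have := code0_inl_lt n R e
    omega
  · have h := (codeB_spec n R X).1
    rw [code0_inr]
    have : n ^ 2 = n * n := sq n
    omega

theorem code0_inj (n : ℕ) (R : ℕ → ℕ → Prop) : Function.Injective (code0 n R) := by
  rintro (e | X) (e' | X') h
  · obtain ⟨u, v, huv, rfl⟩ := exists_mk_le e
    obtain ⟨u', v', huv', rfl⟩ := exists_mk_le e'
    rw [code0_mk huv, code0_mk huv'] at h
    obtain ⟨h1, h2⟩ := code_eq v.2 v'.2 h
    rw [Fin.ext h1, Fin.ext h2]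
  · have h1 := code0_inl_lt n R e
    rw [code0_inr] at h
    omega
  · have h1 := code0_inl_lt n R e'
    rw [code0_inr] at h
    omega
  · rw [code0_inr, code0_inr] at h
    exact congrArg Sum.inr (codeB_inj n R (by omega))

theorem codeG_inl_lt (n : ℕ) (R : ℕ → ℕ → Prop) (g g' : Gen0 (gr n R)) :
    codeG n R (Sum.inl (g, g')) < 4 * n ^ 4 := by
  rw [codeG_inl]
  have h := code_lt (code0_lt n R g) (code0_lt n R g')
  have h2 : 2 * n ^ 2 * (2 * n ^ 2) = 4 * n ^ 4 := by ring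
  omega

theorem codeB_mul_lt (n : ℕ) (R : ℕ → ℕ → Prop) (X : Blk (gr n R)) (i : ℕ) (hi : i < n) :
    codeB n R X * n + i < n ^ 3 := by
  have h := code_lt (codeB_spec n R X).1 hi
  have h2 : n * n * n = n ^ 3 := by ring
  omega

theorem codeG_lt (n : ℕ) (R : ℕ → ℕ → Prop) (g : Gen (gr n R)) : codeG n R g < NG n := by
  unfold NG
  rcases g with ⟨g, g'⟩ | ⟨X, i⟩
  · have := codeG_inl_lt n R g g'
    omega
  · rw [codeG_inr]
    have hi : (i : ℕ) < n := by
      have := i.2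
      simpa using this
    have := codeB_mul_lt n R X i hi
    omega

theorem codeG_inj (n : ℕ) (R : ℕ → ℕ → Prop) : Function.Injective (codeG n R) := by
  rintro (⟨g, g'⟩ | ⟨X, i⟩) (⟨f, f'⟩ | ⟨Y, j⟩) h
  · rw [codeG_inl, codeG_inl] at h
    obtain ⟨h1, h2⟩ := code_eq (code0_lt n R g') (code0_lt n R f') h
    rw [code0_inj n R h1, code0_inj n R h2]
  · have h1 := codeG_inl_lt n R g g'
    rw [codeG_inr] at h
    omega
  · have h1 := codeG_inl_lt n R f f'
    rw [codeG_inr] at h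
    omega
  · rw [codeG_inr, codeG_inr] at h
    have hi : (i : ℕ) < n := by simpa using i.2
    have hj : (j : ℕ) < n := by simpa using j.2
    obtain ⟨h1, h2⟩ := code_eq hi hj (Nat.add_left_cancel h)
    rw [codeB_inj n R h1, Fin.ext h2]

theorem codeC_lt (n : ℕ) (R : ℕ → ℕ → Prop) (x : Coord (gr n R)) : codeC n R x < ND n := by
  unfold ND
  rcases x with g | ⟨X, i, b⟩ | ⟨v, b⟩
  · have := code0_lt n R g
    change code0 n R g < _
    omega
  · have hi : (i : ℕ) < n := by simpa using i.2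
    have h1 := codeB_mul_lt n R X i hi
    have hb := b.2
    change 2 * n ^ 2 + 2 * (codeB n R X * n + (i : ℕ)) + (b : ℕ) < _
    omega
  · have hv := v.2
    have hb := b.2
    change 2 * n ^ 2 + 2 * n ^ 3 + 2 * (v : ℕ) + (b : ℕ) < _
    omega

theorem codeC_inj (n : ℕ) (R : ℕ → ℕ → Prop) : Function.Injective (codeC n R) := by
  rintro (g | ⟨X, i, b⟩ | ⟨v, b⟩) (g' | ⟨X', i', b'⟩ | ⟨v', b'⟩) h
  · exact congrArg Sum.inl (code0_inj n R h)
  · have h1 := code0_lt n R g
    change code0 n R g = 2 * n ^ 2 + 2 * (codeB n R X' * n + (i' : ℕ)) + (b' : ℕ) at h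
    omega
  · have h1 := code0_lt n R g
    change code0 n R g = 2 * n ^ 2 + 2 * n ^ 3 + 2 * (v' : ℕ) + (b' : ℕ) at h
    omega
  · have h1 := code0_lt n R g'
    change 2 * n ^ 2 + 2 * (codeB n R X * n + (i : ℕ)) + (b : ℕ) = code0 n R g' at h
    omega
  · change 2 * n ^ 2 + 2 * (codeB n R X * n + (i : ℕ)) + (b : ℕ) =
      2 * n ^ 2 + 2 * (codeB n R X' * n + (i' : ℕ)) + (b' : ℕ) at h
    have hi : (i : ℕ) < n := by simpa using i.2
    have hi' : (i' : ℕ) < n := by simpa using i'.2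
    have hb := b.2
    have hb' := b'.2
    have h1 : codeB n R X * n + (i : ℕ) = codeB n R X' * n + (i' : ℕ) := by omega
    have h2 : (b : ℕ) = b' := by omega
    obtain ⟨h3, h4⟩ := code_eq hi hi' h1
    rw [codeB_inj n R h3, Fin.ext h4, Fin.ext h2]
  · change 2 * n ^ 2 + 2 * (codeB n R X * n + (i : ℕ)) + (b : ℕ) =
      2 * n ^ 2 + 2 * n ^ 3 + 2 * (v' : ℕ) + (b' : ℕ) at h
    have hi : (i : ℕ) < n := by simpa using i.2
    have h1 := codeB_mul_lt n R X i hi
    have hb := b.2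
    omega
  · have h1 := code0_lt n R g'
    change 2 * n ^ 2 + 2 * n ^ 3 + 2 * (v : ℕ) + (b : ℕ) = code0 n R g' at h
    omega
  · change 2 * n ^ 2 + 2 * n ^ 3 + 2 * (v : ℕ) + (b : ℕ) =
      2 * n ^ 2 + 2 * (codeB n R X' * n + (i' : ℕ)) + (b' : ℕ) at h
    have hi : (i' : ℕ) < n := by simpa using i'.2
    have h1 := codeB_mul_lt n R X' i' hi
    have hb := b'.2
    omega
  · change 2 * n ^ 2 + 2 * n ^ 3 + 2 * (v : ℕ) + (b : ℕ) =
      2 * n ^ 2 + 2 * n ^ 3 + 2 * (v' : ℕ) + (b' : ℕ) at h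
    have hb := b.2
    have hb' := b'.2
    have h1 : (v : ℕ) = v' := by omega
    have h2 : (b : ℕ) = b' := by omega
    rw [Fin.ext h1, Fin.ext h2]

theorem codeL_inl (n : ℕ) (R : ℕ → ℕ → Prop) (v : Fin n) (g : Gen (gr n R)) :
    codeL n R (Sum.inl (v, g)) = (v : ℕ) * NG n + codeG n R g := rfl

theorem codeL_inr (n : ℕ) (R : ℕ → ℕ → Prop) (v : Fin n) :
    codeL n R (Sum.inr v) = n * NG n + (v : ℕ) := rfl

theorem codeL_inl_lt (n : ℕ) (R : ℕ → ℕ → Prop) (v : Fin n) (g : Gen (gr n R)) :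
    codeL n R (Sum.inl (v, g)) < n * NG n := by
  rw [codeL_inl]
  exact code_lt v.2 (codeG_lt n R g)

theorem codeL_lt (n : ℕ) (R : ℕ → ℕ → Prop) (l : Line (gr n R)) :
    codeL n R l < n * NG n + n := by
  rcases l with ⟨v, g⟩ | v
  · have := codeL_inl_lt n R v g
    omega
  · have := v.2
    rw [codeL_inr]
    omega

theorem codeL_inj (n : ℕ) (R : ℕ → ℕ → Prop) : Function.Injective (codeL n R) := by
  rintro (⟨v, g⟩ | v) (⟨v', g'⟩ | v') h
  · rw [codeL_inl, codeL_inl] at h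
    obtain ⟨h1, h2⟩ := code_eq (codeG_lt n R g) (codeG_lt n R g') h
    rw [Fin.ext h1, codeG_inj n R h2]
  · have h1 := codeL_inl_lt n R v g
    rw [h, codeL_inr] at h1
    omega
  · have h1 := codeL_inl_lt n R v' g'
    rw [← h, codeL_inr] at h1
    omega
  · rw [codeL_inr, codeL_inr] at h
    have h1 : (v : ℕ) = v' := by omega
    rw [Fin.ext h1]

theorem mem_vset {n : ℕ} {χ : ℕ → Prop} {v : Fin n} : v ∈ vset n χ ↔ χ v := by
  simp [vset]

theorem at0N_iff (n : ℕ) (R : ℕ → ℕ → Prop) (v : Fin n) (k : ℕ) :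
    At0N n R v k ↔ ∃ g, At0 (gr n R) v g ∧ code0 n R g = k := by
  have hn : 0 < n := v.pos
  have hn2 : n ^ 2 = n * n := sq n
  constructor
  · rintro (⟨hk, hc, hv⟩ | ⟨hk, hk', hb, hv⟩)
    · have h1 : k / n < n := Nat.div_lt_of_lt_mul (by rw [← hn2]; exact hk)
      have h2 : k % n < n := Nat.mod_lt _ hn
      have h3 : (⟨k / n, h1⟩ : Fin n) < ⟨k % n, h2⟩ := hc.1
      refine ⟨Sum.inl s(⟨k / n, h1⟩, ⟨k % n, h2⟩), ⟨(coloopN_iff h3).1 hc, ?_⟩, ?_⟩
      · rw [Sym2.mem_iff]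
        rcases hv with hv | hv
        · exact Or.inl (Fin.ext hv)
        · exact Or.inr (Fin.ext hv)
      · rw [code0_mk h3.le]
        exact Nat.div_add_mod' k n
    · have hk2 : k - n ^ 2 < n * n := by omega
      refine ⟨Sum.inr ⟨blkSet n R (k - n ^ 2), blkSet_mem hk2 hb⟩, ?_, ?_⟩
      · change v ∈ blkSet n R (k - n ^ 2)
        exact mem_vset.2 hv
      · rw [code0_inr, codeB_blkSet hk2 hb]
        omega
  · rintro ⟨e | X, hg, rfl⟩
    · obtain ⟨u, w, huw, rfl⟩ := exists_mk_le e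
      have he : s(u, w) ∈ edges (gr n R) := by
        have := hg.1
        unfold coloops at this
        exact (Finset.mem_filter.1 this).1
      have hne : u ≠ w := by
        rw [Pool.Agent.Helper36.Pin.mem_edges_mk] at he
        exact he.ne
      have hlt : u < w := lt_of_le_of_ne huw hne
      left
      refine ⟨code0_inl_lt n R _, ?_, ?_⟩
      · rw [code0_mk huw, code_div w.2, code_mod w.2]
        exact (coloopN_iff hlt).2 hg.1
      · rw [code0_mk huw, code_div w.2, code_mod w.2]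
        have := hg.2
        rw [Sym2.mem_iff] at this
        rcases this with h | h
        · exact Or.inl (by rw [h])
        · exact Or.inr (by rw [h])
    · right
      obtain ⟨h1, h2, h3⟩ := codeB_spec n R X
      rw [code0_inr, Nat.add_sub_cancel_left]
      refine ⟨by omega, by omega, h2, ?_⟩
      have h4 : v ∈ blkSet n R (codeB n R X) := by rw [h3]; exact hg
      exact mem_vset.1 h4

theorem atN_iff (n : ℕ) (R : ℕ → ℕ → Prop) (v : Fin n) (k : ℕ) :
    AtN n R v k ↔ ∃ g, At (gr n R) v g ∧ codeG n R g = k ∧ ∀ g', g ≠ Sum.inl (g', g') := by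
  have hn : 0 < n := v.pos
  have hn2 : n ^ 2 = n * n := sq n
  have hn4 : 2 * n ^ 2 * (2 * n ^ 2) = 4 * n ^ 4 := by ring
  have hn3 : n * (n * n) = n ^ 3 := by ring
  constructor
  · rintro (⟨hk, h1, h2, h3⟩ | ⟨hk, hk', hb, hv, hi⟩)
    · obtain ⟨g1, hg1, hc1⟩ := (at0N_iff n R v _).1 h1
      obtain ⟨g2, hg2, hc2⟩ := (at0N_iff n R v _).1 h2
      refine ⟨Sum.inl (g1, g2), ⟨hg1, hg2⟩, ?_, ?_⟩
      · rw [codeG_inl, hc1, hc2]
        exact Nat.div_add_mod' k _
      · intro g' hg'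
        have h4 := Sum.inl.inj hg'
        apply h3
        rw [← hc1, ← hc2, (Prod.mk.inj h4).1, (Prod.mk.inj h4).2]
    · have hc : (k - 4 * n ^ 4) / n < n * n := by
        apply Nat.div_lt_of_lt_mul
        unfold NG at hk'
        omega
      have hm : (k - 4 * n ^ 4) % n < n := Nat.mod_lt _ hn
      refine ⟨Sum.inr (⟨blkSet n R ((k - 4 * n ^ 4) / n), blkSet_mem hc hb⟩,
        ⟨(k - 4 * n ^ 4) % n, by simpa using hm⟩), ⟨?_, ?_⟩, ?_, ?_⟩
      · exact mem_vset.2 hv
      · change (k - 4 * n ^ 4) % n + 2 < (blkSet n R ((k - 4 * n ^ 4) / n)).card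
        rw [← bcard_eq]
        exact hi
      · rw [codeG_inr, codeB_blkSet hc hb]
        have := Nat.div_add_mod' (k - 4 * n ^ 4) n
        change 4 * n ^ 4 + ((k - 4 * n ^ 4) / n * n + (k - 4 * n ^ 4) % n) = k
        omega
      · intro g' hg'
        cases hg'
  · rintro ⟨⟨g1, g2⟩ | ⟨X, i⟩, hg, rfl, hne⟩
    · left
      refine ⟨codeG_inl_lt n R g1 g2, ?_, ?_, ?_⟩
      · rw [codeG_inl, code_div (code0_lt n R g2)]
        exact (at0N_iff n R v _).2 ⟨g1, hg.1, rfl⟩
      · rw [codeG_inl, code_mod (code0_lt n R g2)]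
        exact (at0N_iff n R v _).2 ⟨g2, hg.2, rfl⟩
      · rw [codeG_inl, code_div (code0_lt n R g2), code_mod (code0_lt n R g2)]
        intro h
        have := code0_inj n R h
        subst this
        exact hne g1 rfl
    · right
      obtain ⟨h1, h2, h3⟩ := codeB_spec n R X
      have hi : (i : ℕ) < n := by simpa using i.2
      have hlt := codeG_lt n R (Sum.inr (X, i))
      rw [codeG_inr] at hlt ⊢
      rw [Nat.add_sub_cancel_left, code_div hi, code_mod hi]
      refine ⟨by omega, hlt, h2, ?_, ?_⟩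
      · have h4 : v ∈ blkSet n R (codeB n R X) := by rw [h3]; exact hg.1
        exact mem_vset.1 h4
      · rw [bcard_eq, h3]
        exact hg.2

/-- The lines with a nonzero first vector. -/
theorem lineN_iff (n : ℕ) (R : ℕ → ℕ → Prop) (U : ℕ → Prop) (k : ℕ) :
    lineN n R U k ↔ ∃ l ∈ lines (gr n R) (vset n U), codeL n R l = k ∧
      ∀ v g', l ≠ Sum.inl (v, Sum.inl (g', g')) := by
  classical
  constructor
  · rintro (⟨hk, hU, hA⟩ | ⟨hk, hk', hU⟩)
    · have hN : 0 < NG n := by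
        rcases Nat.eq_zero_or_pos (NG n) with h | h
        · rw [h] at hk; simp at hk
        · exact h
      have hv : k / NG n < n := Nat.div_lt_of_lt_mul (by rw [Nat.mul_comm]; exact hk)
      obtain ⟨g, hg, hc, hne⟩ := (atN_iff n R ⟨k / NG n, hv⟩ (k % NG n)).1 hA
      refine ⟨Sum.inl (⟨k / NG n, hv⟩, g), ?_, ?_, ?_⟩
      · unfold lines
        rw [Finset.mem_filter]
        exact ⟨Finset.mem_univ _, mem_vset.2 hU, hg⟩
      · rw [codeL_inl, hc]
        exact Nat.div_add_mod' k _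
      · intro v g' h
        have h1 := Sum.inl.inj h
        exact hne g' (Prod.mk.inj h1).2
    · have hv : k - n * NG n < n := by omega
      refine ⟨Sum.inr ⟨k - n * NG n, hv⟩, ?_, ?_, ?_⟩
      · unfold lines
        rw [Finset.mem_filter]
        exact ⟨Finset.mem_univ _, mem_vset.2 hU⟩
      · rw [codeL_inr]
        change n * NG n + (k - n * NG n) = k
        omega
      · intro v g' h
        cases h
  · rintro ⟨⟨v, g⟩ | v, hl, rfl, hne⟩
    · left
      unfold lines at hl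
      rw [Finset.mem_filter] at hl
      obtain ⟨-, hU, hg⟩ := hl
      refine ⟨codeL_inl_lt n R v g, ?_, ?_⟩
      · rw [codeL_inl, code_div (codeG_lt n R g)]
        exact mem_vset.1 hU
      · rw [codeL_inl, code_div (codeG_lt n R g), code_mod (codeG_lt n R g)]
        refine (atN_iff n R v _).2 ⟨g, hg, rfl, ?_⟩
        intro g' h
        exact hne v g' (by rw [h])
    · right
      unfold lines at hl
      rw [Finset.mem_filter] at hl
      rw [codeL_inr, Nat.add_sub_cancel_left]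
      exact ⟨by omega, by have := v.2; omega, mem_vset.1 hl.2⟩

end Pool.Agent.Helper36.Alg
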